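import Pool.Agent.MP_ed9623_an.H77.SpecW

/-! Row Mol2: kernels, norm and convergence of mollifications. -/

open MeasureTheory Filter Topology Set
open scoped ContDiff

namespace Pool.Agent.MP_ed9623_an.H77

open H64

namespace Mol2

variable {ε : ℝ} {k f : P → ℝ}

theorem ker (ε : ℝ) (U : Set P) (hU : IsOpen U) (hne : U.Nonempty) (hs : U ⊆ Metric.ball 0 ε) :
    ∃ k, Ker ε k ∧ tsupport k ⊆ U := by
  obtain ⟨x, hx⟩ := hne
  obtain ⟨χ, h1, h2, h3⟩ := exists_cut (isCompact_singleton (x := x)) hU (singleton_subset_iff.2 hx)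
  have h4 : χ x = 1 := h3.self_of_nhdsSet x rfl
  have h5 : 0 < ∫ y, χ y := h1.ct.integral_pos_of_hasCompactSupport_nonneg_nonzero (x := x) h1.2.1
    (fun y => (h2 y).1) (by rw [h4]; exact one_ne_zero)
  have h6 := h1.cmul (∫ y, χ y)⁻¹
  refine ⟨_, ⟨h6.mono hs, fun y => mul_nonneg (inv_nonneg.2 h5.le) (h2 y).1, ?_⟩, h6.2.2⟩
  rw [integral_const_mul, inv_mul_cancel₀ h5.ne']

theorem kint (hk : Ker ε k) : Integrable k := hk.1.ct.integrable_of_hasCompactSupport hk.1.2.1

theorem jensen (hk : Ker ε k) {g : P → ℝ} (hg : AEStronglyMeasurable g volume)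
    (h2 : Integrable fun v => k v * g v ^ 2) : (∫ v, k v * g v) ^ 2 ≤ ∫ v, k v * g v ^ 2 := by
  have h0 := kint hk
  have h1 : Integrable fun v => k v * g v := by
    refine (h0.add h2).mono' (h0.1.mul hg) (Eventually.of_forall fun v => ?_)
    have := hk.2.1 v
    rw [Real.norm_eq_abs, abs_le, Pi.add_apply]
    constructor <;> nlinarith [mul_nonneg this (sq_nonneg (g v + 1)),
      mul_nonneg this (sq_nonneg (g v - 1)), mul_nonneg this (sq_nonneg (g v))]
  obtain ⟨m, hm⟩ : ∃ m, m = ∫ v, k v * g v := ⟨_, rfl⟩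
  have h3 : 0 ≤ ∫ v, (k v * g v ^ 2 - 2 * m * (k v * g v) + m ^ 2 * k v) :=
    integral_nonneg fun v => by
      have := mul_nonneg (hk.2.1 v) (sq_nonneg (g v - m))
      simp only [Pi.zero_apply]
      nlinarith
  have h4 : Integrable fun v => k v * g v ^ 2 - 2 * m * (k v * g v) := h2.sub (h1.const_mul _)
  rw [integral_add h4 (h0.const_mul _), integral_sub h2 (h1.const_mul _), integral_const_mul,
    integral_const_mul, hk.2.2, ← hm] at h3
  rw [← hm]
  nlinarith

/-- Minkowski's inequality for an average of square integrable functions. -/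
theorem mink (hk : Ker ε k) {G : P × P → ℝ} (hG : AEStronglyMeasurable G (volume.prod volume))
    (h1 : ∀ v, M2 fun x => G (x, v)) {C : ℝ} (hC : 0 ≤ C)
    (h2 : ∀ v ∈ Metric.ball (0 : P) ε, nm (fun x => G (x, v)) ≤ C) :
    M2 (fun x => ∫ v, k v * G (x, v)) ∧ nm (fun x => ∫ v, k v * G (x, v)) ≤ C := by
  have h0 := kint hk
  have hk2 : AEStronglyMeasurable (fun z : P × P => k z.2) (volume.prod volume) :=
    (hk.1.ct.comp continuous_snd).aestronglyMeasurable
  have hm : AEStronglyMeasurable (fun z : P × P => k z.2 * G z ^ 2) (volume.prod volume) :=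
    hk2.mul (hG.pow 2)
  have hb : ∀ v, ∫ x, k v * G (x, v) ^ 2 ≤ C ^ 2 * k v := by
    intro v
    rw [integral_const_mul, ← nm_sq, mul_comm]
    by_cases hv : v ∈ Metric.ball (0 : P) ε
    · exact mul_le_mul_of_nonneg_right (pow_le_pow_left₀ (nm_nonneg _) (h2 v hv) 2) (hk.2.1 v)
    · rw [hk.1.off hv, mul_zero, mul_zero]
  have hp : ∀ z : P × P, 0 ≤ k z.2 * G z ^ 2 := fun z => mul_nonneg (hk.2.1 _) (sq_nonneg _)
  have hi : Integrable (fun z : P × P => k z.2 * G z ^ 2) (volume.prod volume) := by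
    refine (integrable_prod_iff' hm).2 ⟨Eventually.of_forall fun v =>
      (h1 v).int_sq.const_mul (k v), ?_⟩
    refine (h0.const_mul (C ^ 2)).mono' hm.norm.prod_swap.integral_prod_right'
      (Eventually.of_forall fun v => ?_)
    rw [Real.norm_of_nonneg (integral_nonneg fun _ => norm_nonneg _)]
    exact (integral_congr_ae (Eventually.of_forall fun x =>
      Real.norm_of_nonneg (hp (x, v)))).trans_le (hb v)
  have h3 : ∀ᵐ x, (∫ v, k v * G (x, v)) ^ 2 ≤ ∫ v, k v * G (x, v) ^ 2 := by
    filter_upwards [hG.prodMk_left, hi.prod_right_ae] with x a b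
    exact jensen hk a b
  have h4 : AEStronglyMeasurable (fun x => ∫ v, k v * G (x, v)) volume :=
    (hk2.mul hG).integral_prod_right'
  have h5 : Integrable fun x => (∫ v, k v * G (x, v)) ^ 2 :=
    hi.integral_prod_left.mono' (h4.pow 2) (h3.mono fun x hx => by
      rwa [Real.norm_of_nonneg (sq_nonneg _)])
  refine ⟨M2.of_int h4 h5, Real.sqrt_le_iff.2 ⟨hC, ?_⟩⟩
  refine (integral_mono_ae h5 hi.integral_prod_left h3).trans ?_
  rw [integral_integral_swap (f := fun x v => k v * G (x, v) ^ 2) hi]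
  refine (integral_mono hi.integral_prod_right (h0.const_mul _) hb).trans ?_
  rw [integral_const_mul, hk.2.2, mul_one]

theorem mol_eq (k f : P → ℝ) (x : P) : mol k f x = ∫ v, k v * f (x - v) := by
  rw [mol, ← integral_sub_left_eq_self (fun v => k v * f (x - v)) volume x]
  simp only [sub_sub_cancel, mul_comm]

theorem meas_sub (hf : M2 f) :
    AEStronglyMeasurable (fun z : P × P => f (z.1 - z.2)) (volume.prod volume) :=
  hf.meas.comp_quasiMeasurePreserving (quasiMeasurePreserving_sub volume volume)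

theorem m2_sub (hf : M2 f) (v : P) : M2 fun x => f (x - v) :=
  hf.comp_measurePreserving (measurePreserving_sub_right volume v)

theorem norm_le (hk : Ker ε k) (hf : M2 f) : M2 (mol k f) ∧ nm (mol k f) ≤ nm f := by
  rw [funext (mol_eq k f)]
  refine mink hk (meas_sub hf) (m2_sub hf) (nm_nonneg f) fun v _ => le_of_eq ?_
  exact congrArg Real.sqrt (integral_sub_right_eq_self (fun x => f x ^ 2) v)

theorem transl (hf : M2 f) : Tendsto (fun v : P => nm fun p => f (p + v) - f p) (𝓝 0) (𝓝 0) := by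
  let g : C(P × P, P) := ⟨fun z => z.2 + z.1, by fun_prop⟩
  have hm : ∀ v, MeasurePreserving (g.curry v) volume volume := fun v =>
    measurePreserving_add_right volume v
  have h1 : Continuous fun v => Lp.compMeasurePreserving (g.curry v) (hm v) (MemLp.toLp f hf) :=
    continuous_const.compMeasurePreservingLp g.curry.continuous hm (by simp)
  have h2 : ∀ v, (nm fun p => f (p + v) - f p) =
      ‖Lp.compMeasurePreserving (g.curry v) (hm v) (MemLp.toLp f hf) - MemLp.toLp f hf‖ := by
    intro v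
    rw [← nm_coe]
    refine nm_congr ?_
    filter_upwards [Lp.coeFn_sub (Lp.compMeasurePreserving (g.curry v) (hm v) (MemLp.toLp f hf))
      (MemLp.toLp f hf), Lp.coeFn_compMeasurePreserving (MemLp.toLp f hf) (hm v), hf.coeFn_toLp,
      (hm v).quasiMeasurePreserving.ae hf.coeFn_toLp] with p a b c d
    rw [a, Pi.sub_apply, b, Function.comp_apply, c, d]
    rfl
  have h3 : Continuous fun v : P => nm fun p => f (p + v) - f p := by
    rw [funext h2]
    exact (h1.sub continuous_const).norm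
  simpa only [add_zero, sub_self, nm_zero] using h3.tendsto 0

theorem conv (hf : M2 f) (δ : ℝ) (hδ : 0 < δ) : ∃ ε₀ : ℝ, 0 < ε₀ ∧ ∀ ε k, ε ≤ ε₀ → Ker ε k →
    nm (fun p => mol k f p - f p) ≤ δ := by
  obtain ⟨ε₀, h0, h1⟩ := Metric.eventually_nhds_iff_ball.1 ((transl hf).eventually_le_const hδ)
  refine ⟨ε₀, h0, fun ε k he hk => ?_⟩
  have e : (fun p => mol k f p - f p) = fun x => ∫ v, k v * (f (x - v) - f x) := by
    funext x
    have h2 : M2 fun v => f (x - v) :=
      hf.comp_measurePreserving (Measure.measurePreserving_sub_left volume x)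
    simp only [mul_sub]
    rw [integral_sub (hk.1.m2.int_mul h2) ((kint hk).mul_const _), integral_mul_const, hk.2.2,
      one_mul, mol_eq]
  rw [e]
  refine (mink hk (G := fun z => f (z.1 - z.2) - f z.1) ((meas_sub hf).sub hf.meas.comp_fst)
    (fun v => (m2_sub hf v).sub hf) hδ.le fun v hv => ?_).2
  have h3 := h1 (-v) (by
    rw [mem_ball_zero_iff] at hv ⊢
    rw [norm_neg]
    exact hv.trans_le he)
  simpa only [sub_eq_add_neg] using h3

end Mol2

theorem rowMol2 : OfMol2 :=
  ⟨Mol2.ker, fun _ _ _ => Mol2.norm_le, fun _ => Mol2.transl, fun _ => Mol2.conv⟩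

end Pool.Agent.MP_ed9623_an.H77
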